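import Pool.Agent.W606.PS.All
import Pool.Agent.W681.PS.ONE2
import Pool.Agent.W7.PSC.Cyl3

set_option autoImplicit false

namespace Pool.Agent.W606.PS.Fin

open Pool.Agent.W606.PS Pool.Agent.W606.PS.All

theorem one2 : S_ONE2 := Pool.Agent.W681.PS.main Pool.Agent.W395.PSTwo.main Pool.Agent.W881.PS.Adv.main

theorem finT : S_FIN := fin one2 Pool.Agent.W7.PSC.main

end Pool.Agent.W606.PS.Fin
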