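import Mathlib

/-!
Project PS: product structure of planar graphs with a short path factor
(MP_9863c1_co, MP_8191b7_co).  Definitions and the statements of all pieces.
-/

set_option autoImplicit false

open Set Relation

namespace Pool.Agent.W606.PS

/-! ### connected sets in a graph -/

section basic
variable {V : Type}

/-- `S` is a connected (nonempty) set of vertices of `G`. -/
def Con (G : SimpleGraph V) (S : Set V) : Prop :=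
  S.Nonempty ∧ ∀ u ∈ S, ∀ v ∈ S,
    ReflTransGen (fun a b => G.Adj a b ∧ a ∈ S ∧ b ∈ S) u v

/-- there is an edge of `G` between `S` and `S'`. -/
def Tch (G : SimpleGraph V) (S S' : Set V) : Prop := ∃ u ∈ S, ∃ v ∈ S', G.Adj u v

/-- the outer neighbourhood of a set of vertices. -/
def Nb (G : SimpleGraph V) (A : Set V) : Set V := {v | v ∉ A ∧ ∃ u ∈ A, G.Adj u v}

/-- `Om` is (the vertex set of) a component of the graph induced on `S`. -/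
def IsComp (G : SimpleGraph V) (S Om : Set V) : Prop :=
  Om ⊆ S ∧ Con G Om ∧ ∀ u ∈ Om, ∀ v ∈ S, G.Adj u v → v ∈ Om

/-- `F` changes by at most one along every edge with an end in `Om`. -/
def Lip (G : SimpleGraph V) (Om : Set V) (F : V → ℤ) : Prop :=
  ∀ u ∈ Om, ∀ v, G.Adj u v → |F u - F v| ≤ 1

theorem con_singleton (G : SimpleGraph V) (v : V) : Con G {v} := by
  refine ⟨singleton_nonempty v, ?_⟩
  intro a ha b hb
  rw [mem_singleton_iff] at ha hb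
  subst ha; subst hb
  exact ReflTransGen.refl

theorem rtg_mono {G : SimpleGraph V} {S S' : Set V} (h : S ⊆ S') {u v : V}
    (p : ReflTransGen (fun a b => G.Adj a b ∧ a ∈ S ∧ b ∈ S) u v) :
    ReflTransGen (fun a b => G.Adj a b ∧ a ∈ S' ∧ b ∈ S') u v := by
  induction p with
  | refl => exact ReflTransGen.refl
  | tail _ q ih => exact ih.tail ⟨q.1, h q.2.1, h q.2.2⟩

theorem rtg_symm {G : SimpleGraph V} {S : Set V} {u v : V}
    (p : ReflTransGen (fun a b => G.Adj a b ∧ a ∈ S ∧ b ∈ S) u v) :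
    ReflTransGen (fun a b => G.Adj a b ∧ a ∈ S ∧ b ∈ S) v u := by
  induction p with
  | refl => exact ReflTransGen.refl
  | tail _ h ih => exact ReflTransGen.head ⟨h.1.symm, h.2.2, h.2.1⟩ ih

/-- connected from a base point. -/
theorem con_of_base {G : SimpleGraph V} {S : Set V} {u : V} (hu : u ∈ S)
    (h : ∀ v ∈ S, ReflTransGen (fun a b => G.Adj a b ∧ a ∈ S ∧ b ∈ S) u v) : Con G S :=
  ⟨⟨u, hu⟩, fun a ha b hb => (rtg_symm (h a ha)).trans (h b hb)⟩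

theorem Tch.symm {G : SimpleGraph V} {S S' : Set V} (h : Tch G S S') : Tch G S' S := by
  obtain ⟨u, hu, v, hv, e⟩ := h
  exact ⟨v, hv, u, hu, e.symm⟩

theorem Con.union_tch {G : SimpleGraph V} {S S' : Set V} (h : Con G S) (h' : Con G S')
    (ht : Tch G S S') : Con G (S ∪ S') := by
  obtain ⟨u, hu, v, hv, e⟩ := ht
  refine con_of_base (u := u) (Or.inl hu) ?_
  rintro w (hw | hw)
  · exact rtg_mono subset_union_left (h.2 u hu w hw)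
  · exact ReflTransGen.head ⟨e, Or.inl hu, Or.inr hv⟩ (rtg_mono subset_union_right (h'.2 v hv w hw))

theorem Con.union_inter {G : SimpleGraph V} {S S' : Set V} (h : Con G S) (h' : Con G S')
    (ht : (S ∩ S').Nonempty) : Con G (S ∪ S') := by
  obtain ⟨u, hu, hu'⟩ := ht
  refine con_of_base (u := u) (Or.inl hu) ?_
  rintro w (hw | hw)
  · exact rtg_mono subset_union_left (h.2 u hu w hw)
  · exact rtg_mono subset_union_right (h'.2 u hu' w hw)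

/-- if every point of `S` lies in a connected subset of `S` that meets the connected set `S₀ ⊆ S`,
then `S` is connected. -/
theorem con_of_cover {G : SimpleGraph V} {S S₀ : Set V} (h₀ : Con G S₀) (hs : S₀ ⊆ S)
    (h : ∀ v ∈ S, ∃ R : Set V, v ∈ R ∧ R ⊆ S ∧ Con G R ∧ (R ∩ S₀).Nonempty) : Con G S := by
  obtain ⟨u, hu⟩ := h₀.1
  refine con_of_base (u := u) (hs hu) ?_
  intro v hv
  obtain ⟨R, hvR, hRS, hR, w, hwR, hw₀⟩ := h v hv
  exact (rtg_mono hs (h₀.2 u hu w hw₀)).trans (rtg_mono hRS (hR.2 w hwR v hvR))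

/-- a path inside `S` from a point of `A` to a point outside `A` uses an edge leaving `A`. -/
theorem rtg_exit {G : SimpleGraph V} {S A : Set V} {u v : V}
    (p : ReflTransGen (fun a b => G.Adj a b ∧ a ∈ S ∧ b ∈ S) u v) (hu : u ∈ A) (hv : v ∉ A) :
    ∃ a b, a ∈ S ∧ b ∈ S ∧ a ∈ A ∧ b ∉ A ∧ G.Adj a b := by
  induction p with
  | refl => exact absurd hu hv
  | @tail b c _ h ih =>
    by_cases hb : b ∈ A
    · exact ⟨b, c, h.2.1, h.2.2, hb, hv, h.1⟩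
    · exact ih hb

theorem Con.exit {G : SimpleGraph V} {S A : Set V} (h : Con G S) {u v : V}
    (hu : u ∈ S) (huA : u ∈ A) (hv : v ∈ S) (hvA : v ∉ A) :
    ∃ a b, a ∈ S ∧ b ∈ S ∧ a ∈ A ∧ b ∉ A ∧ G.Adj a b :=
  rtg_exit (h.2 u hu v hv) huA hvA

/-- every point of `S` lies in a component. -/
theorem exists_comp (G : SimpleGraph V) {S : Set V} {u : V} (hu : u ∈ S) :
    ∃ Om, IsComp G S Om ∧ u ∈ Om := by
  have key : ∀ v, ReflTransGen (fun a b => G.Adj a b ∧ a ∈ S ∧ b ∈ S) u v →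
      v ∈ S ∧ ReflTransGen (fun a b => G.Adj a b ∧
        a ∈ {v | ReflTransGen (fun a b => G.Adj a b ∧ a ∈ S ∧ b ∈ S) u v} ∧
        b ∈ {v | ReflTransGen (fun a b => G.Adj a b ∧ a ∈ S ∧ b ∈ S) u v}) u v := by
    intro v p
    induction p with
    | refl => exact ⟨hu, ReflTransGen.refl⟩
    | @tail b c q h ih =>
      exact ⟨h.2.2, ih.2.tail ⟨h.1, q, q.tail h⟩⟩
  refine ⟨{v | ReflTransGen (fun a b => G.Adj a b ∧ a ∈ S ∧ b ∈ S) u v},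
    ⟨fun v hv => (key v hv).1, con_of_base (u := u) ReflTransGen.refl (fun v hv => (key v hv).2), ?_⟩,
    ReflTransGen.refl⟩
  intro a ha b hb hab
  exact ReflTransGen.tail ha ⟨hab, (key a ha).1, hb⟩

/-- a connected subset of `S` that meets a component of `S` lies in it. -/
theorem IsComp.sub_of_con {G : SimpleGraph V} {S Om R : Set V} (h : IsComp G S Om)
    (hR : Con G R) (hRS : R ⊆ S) (hm : (R ∩ Om).Nonempty) : R ⊆ Om := by
  obtain ⟨u, huR, hu⟩ := hm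
  intro v hv
  by_contra hvO
  obtain ⟨a, b, -, hb, ha, hbO, e⟩ := hR.exit huR hu hv hvO
  exact hbO (h.2.2 a ha b (hRS hb) e)

theorem IsComp.eq_of_inter {G : SimpleGraph V} {S Om Om' : Set V} (h : IsComp G S Om)
    (h' : IsComp G S Om') (hm : (Om ∩ Om').Nonempty) : Om = Om' :=
  Subset.antisymm (h'.sub_of_con h.2.1 h.1 hm)
    (h.sub_of_con h'.2.1 h'.1 (by rwa [inter_comm] at hm))

/-- a component of `Om \ Y` touches `Y` (`Om` connected, `Y ⊆ Om` nonempty). -/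
theorem IsComp.tch {G : SimpleGraph V} {Om Y Om' : Set V} (hO : Con G Om) (hY : Y ⊆ Om)
    (hne : Y.Nonempty) (h : IsComp G (Om \ Y) Om') : Tch G Om' Y := by
  obtain ⟨u, hu⟩ := h.2.1.1
  obtain ⟨y, hy⟩ := hne
  have huO := h.1 hu
  obtain ⟨a, b, haO, hbO, ha, hb, e⟩ := hO.exit huO.1 hu (hY hy) (fun hh => (h.1 hh).2 hy)
  refine ⟨a, ha, b, ?_, e⟩
  by_contra hbY
  exact hb (h.2.2 a ha b ⟨hbO, hbY⟩ e)

/-- if `Z ∪ Y` is connected, then so is `Z` together with everything of `Om` outside one component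
`Om'` of `Om \ Y`. -/
theorem con_union_diff {G : SimpleGraph V} {Om Y Om' Z : Set V} (hO : Con G Om) (hY : Y ⊆ Om)
    (hne : Y.Nonempty) (h : IsComp G (Om \ Y) Om') (hZ : Con G (Z ∪ Y)) :
    Con G (Z ∪ (Om \ Om')) := by
  have hYO : ∀ y ∈ Y, y ∈ Om \ Om' := fun y hy => ⟨hY hy, fun hh => (h.1 hh).2 hy⟩
  have hsub : Z ∪ Y ⊆ Z ∪ (Om \ Om') := by
    rintro v (hv | hv)
    · exact Or.inl hv
    · exact Or.inr (hYO v hv)
  refine con_of_cover hZ hsub ?_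
  rintro v (hv | hv)
  · exact ⟨Z ∪ Y, Or.inl hv, hsub, hZ, ⟨v, Or.inl hv, Or.inl hv⟩⟩
  · by_cases hvY : v ∈ Y
    · exact ⟨Z ∪ Y, Or.inr hvY, hsub, hZ, ⟨v, Or.inr hvY, Or.inr hvY⟩⟩
    · obtain ⟨Om₂, h₂, hv₂⟩ := exists_comp G (S := Om \ Y) (u := v) ⟨hv.1, hvY⟩
      obtain ⟨a, ha, b, hb, e⟩ := h₂.tch hO hY hne
      have hdis : ∀ w ∈ Om₂, w ∉ Om' := by
        intro w hw hw'
        have := h₂.eq_of_inter h ⟨w, hw, hw'⟩
        rw [this] at hv₂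
        exact hv.2 hv₂
      refine ⟨Om₂ ∪ {b}, Or.inl hv₂, ?_, h₂.2.1.union_tch (con_singleton G b) ⟨a, ha, b, rfl, e⟩,
        ⟨b, Or.inr rfl, Or.inr hb⟩⟩
      rintro w (hw | hw)
      · exact Or.inr ⟨(h₂.1 hw).1, hdis w hw⟩
      · rw [mem_singleton_iff] at hw
        subst hw
        exact Or.inr (hYO _ hb)

/-- special case `Z = ∅`. -/
theorem con_diff_comp {G : SimpleGraph V} {Om Y Om' : Set V} (hO : Con G Om) (hY : Y ⊆ Om)
    (hYc : Con G Y) (h : IsComp G (Om \ Y) Om') : Con G (Om \ Om') := by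
  have := con_union_diff (Z := ∅) hO hY hYc.1 h (by rwa [empty_union])
  rwa [empty_union] at this

end basic

/-! ### triangulated spheres (fine complexes) -/

/-- A finite 2-dimensional complex made of triangles: edges with two ends, triangles with three
edge slots and three vertex slots, slot `i` of the edges joining the vertex slots `i+1`, `i+2`. -/
structure Cx (X E T : Type) where
  e : E → Fin 2 → X
  te : T → Fin 3 → E
  tv : T → Fin 3 → X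
  inc : ∀ t i, s(e (te t i) 0, e (te t i) 1) = s(tv t (i + 1), tv t (i + 2))

/-- the 1-skeleton as a simple graph. -/
def Cx.gr {X E T : Type} (K : Cx X E T) : SimpleGraph X :=
  SimpleGraph.fromRel (fun u v => ∃ a, K.e a 0 = u ∧ K.e a 1 = v)

/-- sphere axioms: connected 1-skeleton, every edge in exactly two triangle slots, no proper
nonempty set of triangles without mod 2 boundary, Euler characteristic 2. -/
structure Cx.IsSphere {X E T : Type} [Fintype X] [Fintype E] [Fintype T] (K : Cx X E T) : Prop where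
  conn : Con K.gr univ
  two : ∀ a : E, {p : T × Fin 3 | K.te p.1 p.2 = a}.ncard = 2
  strong : ∀ A : Set T, (∀ a : E, Even {p : T × Fin 3 | p.1 ∈ A ∧ K.te p.1 p.2 = a}.ncard) →
    A = ∅ ∨ A = univ
  euler : Fintype.card X + Fintype.card T = Fintype.card E + 2

/-- the triangle `t` has one vertex in each of the three sets `Z 0, Z 1, Z 2`. -/
def Rain {V T : Type} (tv : T → Fin 3 → V) (Z : Fin 3 → Set V) (t : T) : Prop :=
  ∃ s : Equiv.Perm (Fin 3), ∀ i, tv t (s i) ∈ Z i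

/-- first cohomology (mod 2) vanishes. -/
def S_FC : Prop := ∀ (X E T : Type) [Fintype X] [Fintype E] [Fintype T] (K : Cx X E T),
  K.IsSphere → ∀ k : E → ZMod 2, (∀ t, k (K.te t 0) + k (K.te t 1) + k (K.te t 2) = 0) →
    ∃ b : X → ZMod 2, ∀ a, k a = b (K.e a 0) + b (K.e a 1)

/-- a partition into three connected sets has 0 or 2 rainbow triangles. -/
def S_FT2 : Prop := ∀ (X E T : Type) [Fintype X] [Fintype E] [Fintype T] (K : Cx X E T),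
  K.IsSphere → ∀ Z : Fin 3 → Set X, (∀ i, Con K.gr (Z i)) → (∀ i j, i ≠ j → Disjoint (Z i) (Z j)) →
    (⋃ i, Z i) = univ → Even {t | Rain K.tv Z t}.ncard ∧ {t | Rain K.tv Z t}.ncard ≤ 2

/-! ### the abstract sphere interface -/

/-- The properties of a (contracted) triangulated sphere used in the argument. `G` is a graph,
`tv t` are the three vertices of the triangle `t`. -/
structure Sph {V T : Type} (G : SimpleGraph V) (tv : T → Fin 3 → V) : Prop where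
  conn : Con G univ
  clos : ∀ t i j, tv t i = tv t j ∨ G.Adj (tv t i) (tv t j)
  coh : ∀ P Q : Set V, Disjoint P Q →
    (∀ t i j, tv t i ∈ P → tv t j ∈ Q → ∀ k, tv t k ∈ P ∪ Q) →
    ∃ b : V → Bool, ∀ u v, G.Adj u v → (b u ≠ b v ↔ (u ∈ P ∧ v ∈ Q ∨ u ∈ Q ∧ v ∈ P))
  three_a : ∀ Z : Fin 3 → Set V, (∀ i, Con G (Z i)) → (∀ i j, i ≠ j → Disjoint (Z i) (Z j)) →
    (⋃ i, Z i) = univ → ∀ t, Rain tv Z t → ∃ t', t' ≠ t ∧ Rain tv Z t'
  three_b : ∀ Z : Fin 3 → Set V, (∀ i, Con G (Z i)) → (∀ i j, i ≠ j → Disjoint (Z i) (Z j)) →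
    (⋃ i, Z i) = univ → ∀ t₁ t₂ t₃, Rain tv Z t₁ → Rain tv Z t₂ → Rain tv Z t₃ →
      t₁ = t₂ ∨ t₁ = t₃ ∨ t₂ = t₃

/-- quotient of a sphere by a map with connected fibres. -/
def S_QUOT : Prop := ∀ (X E T : Type) [Fintype X] [Fintype E] [Fintype T] (K : Cx X E T),
  K.IsSphere → ∀ (V : Type) (G : SimpleGraph V) (f : X → V), Function.Surjective f →
    (∀ v, Con K.gr (f ⁻¹' {v})) →
    (∀ u v, G.Adj u v ↔ u ≠ v ∧ ∃ x y, f x = u ∧ f y = v ∧ K.gr.Adj x y) →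
    Sph G (fun t i => f (K.tv t i))

/-! ### topology of the interface -/

/-- the neighbourhood of a connected set with connected complement is connected. -/
def S_NB : Prop := ∀ (V T : Type) (G : SimpleGraph V) (tv : T → Fin 3 → V), Sph G tv →
  ∀ A : Set V, Con G A → Con G Aᶜ → Con G (Nb G A)

/-- region data with three classes, all touching the region. -/
structure RD3 {V T : Type} (G : SimpleGraph V) (tv : T → Fin 3 → V) (Om : Set V)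
    (Z : Fin 3 → Set V) : Prop where
  om : Con G Om
  con : ∀ i, Con G (Z i)
  disj : ∀ i j, i ≠ j → Disjoint (Z i) (Z j)
  cov : (⋃ i, Z i) = Omᶜ
  rain : ∃ t, Rain tv Z t
  tch : ∀ i, Tch G Om (Z i)

/-- Fact A: a rainbow triangle touching the region. -/
def S_FACTA : Prop := ∀ (V T : Type) (G : SimpleGraph V) (tv : T → Fin 3 → V), Sph G tv →
  ∀ (Om : Set V) (Z : Fin 3 → Set V), RD3 G tv Om Z →
  ∀ Z' : Fin 3 → Set V, (∀ i, Z i ⊆ Z' i) → (∀ i, Con G (Z' i)) →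
    (∀ i j, i ≠ j → Disjoint (Z' i) (Z' j)) → (⋃ i, Z' i) = univ →
    ∃ t, Rain tv Z' t ∧ ∃ i, tv t i ∈ Om

/-- no K33-like configuration. -/
def S_K33 : Prop := ∀ (V T : Type) (G : SimpleGraph V) (tv : T → Fin 3 → V), Sph G tv →
  ∀ (Om La : Set V) (Z : Fin 3 → Set V), Con G Om → Con G La → (∀ i, Con G (Z i)) →
    (∀ i j, i ≠ j → Disjoint (Z i) (Z j)) → Disjoint Om La → (∀ i, Disjoint Om (Z i)) →
    (∀ i, Disjoint La (Z i)) → (∀ i, Tch G Om (Z i)) → (∀ i, Tch G La (Z i)) →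
    (∃ t, Rain tv Z t) → False

/-- separation with three legs from a rainbow triangle. -/
def S_SEP1 : Prop := ∀ (V T : Type) (G : SimpleGraph V) (tv : T → Fin 3 → V), Sph G tv →
  ∀ (Om : Set V) (Z L : Fin 3 → Set V), RD3 G tv Om Z → (∀ i, L i ⊆ Om) →
    (∀ i j, i ≠ j → Disjoint (L i) (L j)) → (∀ i, Con G (Z i ∪ L i)) →
    ∀ t, Rain tv (fun i => Z i ∪ L i) t → (∃ i, tv t i ∈ Om) →
    (∀ i, L i = ∅ ∨ (Con G (L i) ∧ ∃ j, tv t j ∈ L i)) →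
    ∀ Om', IsComp G (Om \ ⋃ i, L i) Om' →
      ∃ k, ¬ Tch G Om' (Z k ∪ L k) ∧ Con G (Z k ∪ (Om \ Om'))

/-- separation with three legs and a hub. -/
def S_SEP2 : Prop := ∀ (V T : Type) (G : SimpleGraph V) (tv : T → Fin 3 → V), Sph G tv →
  ∀ (Om La : Set V) (Z L : Fin 3 → Set V), RD3 G tv Om Z → (∀ i, L i ⊆ Om) →
    (∀ i j, i ≠ j → Disjoint (L i) (L j)) → (∀ i, Con G (Z i ∪ L i)) →
    La ⊆ Om → Con G La → (∀ i, Disjoint La (L i)) →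
    (∀ i, (L i = ∅ ∧ Tch G La (Z i)) ∨ (Con G (L i) ∧ Tch G La (L i))) →
    ∀ Om', IsComp G (Om \ (La ∪ ⋃ i, L i)) Om' →
      ∃ k, ¬ Tch G Om' (Z k ∪ L k) ∧ Con G (Z k ∪ (Om \ Om'))

/-- two classes: a triangle between the region and the two classes. -/
def S_TWO : Prop := ∀ (V T : Type) (G : SimpleGraph V) (tv : T → Fin 3 → V), Sph G tv →
  ∀ (Om Z₀ Z₁ : Set V), Con G Om → Con G Z₀ → Con G Z₁ → Disjoint Z₀ Z₁ → Z₀ ∪ Z₁ = Omᶜ →
    Tch G Z₀ Z₁ → Tch G Om Z₀ → Tch G Om Z₁ → ∃ t, Rain tv ![Z₀, Z₁, Om] t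

/-! ### metric part -/

/-- the largest extension: every vertex of the region has a neighbour one lower. -/
def S_FPLUS : Prop := ∀ (V : Type) [Fintype V] (G : SimpleGraph V), Con G univ →
  ∀ (Om : Set V), Omᶜ.Nonempty → ∀ F : V → ℤ, Lip G Om F →
    ∃ f : V → ℤ, (∀ v, v ∉ Om → f v = F v) ∧ Lip G Om f ∧
      ∀ u ∈ Om, ∃ w, G.Adj u w ∧ f w = f u - 1

/-- descending legs and the colours they induce. -/
structure Lg {V : Type} (G : SimpleGraph V) (M : ℤ) (Om : Set V) (Z : Fin 3 → Set V) (f : V → ℤ)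
    (col : V → Fin 3) (leg : V → Set V) : Prop where
  lip : Lip G Om f
  rng : ∀ v ∈ Nb G Om, 0 ≤ f v ∧ f v ≤ M
  colZ : ∀ i, ∀ z ∈ Z i, col z = i
  step : ∀ u ∈ Om, ∃ w, G.Adj u w ∧ f w = f u - 1 ∧ col w = col u ∧ leg u = insert u (leg w)
  out : ∀ u, u ∉ Om → leg u = ∅
  sub : ∀ u, leg u ⊆ Om
  colL : ∀ u, ∀ v ∈ leg u, col v = col u
  le : ∀ u, ∀ v ∈ leg u, 0 ≤ f v ∧ f v ≤ f u
  inj : ∀ u, ∀ v ∈ leg u, ∀ w ∈ leg u, f v = f w → v = w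
  con : ∀ u, Con G (Z (col u) ∪ leg u)
  conL : ∀ u ∈ Om, Con G (leg u)
  cls : ∀ i, Con G {v | col v = i}
  far : ∀ u ∈ Om, ∃ z, z ∉ Om ∧ (G.dist u z : ℤ) ≤ f u

def S_LEG : Prop := ∀ (V : Type) [Fintype V] (G : SimpleGraph V), Con G univ →
  ∀ (M : ℤ) (Om : Set V) (Z : Fin 3 → Set V), (∀ i, Con G (Z i)) →
    (∀ i j, i ≠ j → Disjoint (Z i) (Z j)) → (⋃ i, Z i) = Omᶜ →
    ∀ f : V → ℤ, Lip G Om f → (∀ v ∈ Nb G Om, 0 ≤ f v ∧ f v ≤ M) →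
      (∀ u ∈ Om, ∃ w, G.Adj u w ∧ f w = f u - 1) →
      ∃ (col : V → Fin 3) (leg : V → Set V), Lg G M Om Z f col leg

/-- folding the integers into `[0, M]`. -/
def S_FOLD : Prop := ∀ M : ℕ, 1 ≤ M → ∃ p : ℤ → ℤ, (∀ a, 0 ≤ p a ∧ p a ≤ M) ∧
  (∀ a b, |a - b| ≤ 1 → |p a - p b| ≤ 1) ∧ (∀ a, 0 ≤ a → a ≤ M → p a = a) ∧
  ∀ j, {a : ℤ | 0 ≤ a ∧ a < 6 * M ∧ p a = j}.ncard ≤ 6

/-- separators of small diameter at controlled depth. -/
def SepP {V : Type} (G : SimpleGraph V) (k : ℕ) : Prop :=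
  ∀ (Om : Set V) (x : V), Con G Omᶜ → (∀ z, z ∉ Om → 7 * k + 1 < G.dist x z) →
    ∃ A : Set V, x ∈ A ∧ A ⊆ Om ∧
      (∀ y ∈ Nb G A, y ∈ Om ∧ (∀ z, z ∉ Om → 2 * k + 1 ≤ G.dist y z) ∧
        ∃ z, z ∉ Om ∧ G.dist y z ≤ 7 * k + 1) ∧
      ∀ y ∈ Nb G A, ∀ y' ∈ Nb G A, G.dist y y' ≤ 2 * k

/-- result of one step before folding. -/
def PreStep {V : Type} (G : SimpleGraph V) (k : ℕ) (Om : Set V) (Z : Fin 3 → Set V)
    (F : V → ℤ) : Prop :=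
  ∃ (Y : Set V) (h : V → ℤ), Y ⊆ Om ∧ Y.Nonempty ∧ (∀ v ∈ Nb G Om, h v = F v) ∧ Lip G Om h ∧
    (∀ v ∈ Y, 0 ≤ h v ∧ h v < 12 * k) ∧ (∀ a : ℤ, {v | v ∈ Y ∧ h v = a}.ncard ≤ 6) ∧
    ∀ Om', IsComp G (Om \ Y) Om' → ∃ i, ¬ Tch G Om' (Z i) ∧ Con G (Z i ∪ (Om \ Om'))

/-- result of one step. -/
def Step {V : Type} (G : SimpleGraph V) (k : ℕ) (Om : Set V) (Z : Fin 3 → Set V)
    (F : V → ℤ) : Prop :=
  ∃ (Y : Set V) (F' : V → ℤ), Y ⊆ Om ∧ Y.Nonempty ∧ (∀ v ∈ Nb G Om, F' v = F v) ∧ Lip G Om F' ∧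
    (∀ v, 0 ≤ F' v ∧ F' v ≤ 2 * k) ∧ (∀ a : ℤ, {v | v ∈ Y ∧ F' v = a}.ncard ≤ 36) ∧
    ∀ Om', IsComp G (Om \ Y) Om' → ∃ i, ¬ Tch G Om' (Z i) ∧ Con G (Z i ∪ (Om \ Om'))

def S_CASE1 : Prop := ∀ (V T : Type) [Fintype V] (G : SimpleGraph V) (tv : T → Fin 3 → V),
  Sph G tv → ∀ (k : ℕ), 1 ≤ k → ∀ (Om : Set V) (Z : Fin 3 → Set V), RD3 G tv Om Z →
    ∀ (f : V → ℤ) (col : V → Fin 3) (leg : V → Set V), Lg G (2 * k) Om Z f col leg →
    ∀ t, Rain tv (fun i => {v | col v = i}) t → (∃ i, tv t i ∈ Om) →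
      (∀ i, tv t i ∈ Om → f (tv t i) ≤ 9 * k + 2) → PreStep G k Om Z f

/-- metric part of case 2: hub and legs. -/
def S_C2A : Prop := ∀ (V : Type) [Fintype V] (G : SimpleGraph V), Con G univ → ∀ (k : ℕ), 1 ≤ k →
  SepP G k → ∀ (Om : Set V) (Z : Fin 3 → Set V), Con G Omᶜ → (⋃ i, Z i) = Omᶜ →
    ∀ (f : V → ℤ) (col : V → Fin 3) (leg : V → Set V), Lg G (2 * k) Om Z f col leg →
    ∀ x : Fin 3 → V, (∀ i, col (x i) = i) → (∀ i j, i ≠ j → G.Adj (x i) (x j)) →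
    ∀ i₀, x i₀ ∈ Om → 9 * k + 2 < f (x i₀) →
    ∃ (h : V → ℤ) (La : Set V) (L : Fin 3 → Set V), (∀ v ∈ Nb G Om, h v = f v) ∧ Lip G Om h ∧
      La ⊆ Om ∧ Con G La ∧ (∀ i, L i ⊆ Om) ∧ (∀ i j, i ≠ j → Disjoint (L i) (L j)) ∧
      (∀ i, Con G (Z i ∪ L i)) ∧ (∀ i, Disjoint La (L i)) ∧
      (∀ i, (L i = ∅ ∧ Tch G La (Z i)) ∨ (Con G (L i) ∧ Tch G La (L i))) ∧
      (∀ v ∈ La ∪ ⋃ i, L i, 0 ≤ h v ∧ h v < 12 * k) ∧
      ∀ a : ℤ, {v | v ∈ La ∪ (⋃ i, L i) ∧ h v = a}.ncard ≤ 6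

def S_CASE2 : Prop := ∀ (V T : Type) [Fintype V] (G : SimpleGraph V) (tv : T → Fin 3 → V),
  Sph G tv → ∀ (k : ℕ), 1 ≤ k → SepP G k → ∀ (Om : Set V) (Z : Fin 3 → Set V), RD3 G tv Om Z →
    ∀ (f : V → ℤ) (col : V → Fin 3) (leg : V → Set V), Lg G (2 * k) Om Z f col leg →
    ∀ t, Rain tv (fun i => {v | col v = i}) t → ∀ i, tv t i ∈ Om →
      9 * k + 2 < f (tv t i) → PreStep G k Om Z f

def S_FSTEP : Prop := ∀ (V : Type) [Fintype V] (G : SimpleGraph V) (k : ℕ), 1 ≤ k →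
  ∀ (Om : Set V) (Z : Fin 3 → Set V) (F : V → ℤ), (∀ v ∈ Nb G Om, 0 ≤ F v ∧ F v ≤ 2 * k) →
    PreStep G k Om Z F → Step G k Om Z F

/-- the step for three classes. -/
def StepP {V T : Type} (G : SimpleGraph V) (tv : T → Fin 3 → V) (k : ℕ) : Prop :=
  ∀ (Om : Set V) (Z : Fin 3 → Set V), RD3 G tv Om Z → ∀ F : V → ℤ, Lip G Om F →
    (∀ v ∈ Nb G Om, 0 ≤ F v ∧ F v ≤ 2 * k) → Step G k Om Z F

def S_STEP : Prop := ∀ (V T : Type) [Fintype V] (G : SimpleGraph V) (tv : T → Fin 3 → V),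
  Sph G tv → ∀ (k : ℕ), 1 ≤ k → SepP G k → StepP G tv k

/-! ### output: partition into parts, levels, elimination order -/

/-- `G` has a partition into parts and levels `0..M` with at most `c` vertices in each part and
level, the quotient having an elimination order with cliques of size 3. -/
def Out {V : Type} (G : SimpleGraph V) (M c : ℕ) : Prop :=
  ∃ (P : Type) (_ : Fintype P) (rk : P → ℕ) (C : P → Finset P) (part : V → P) (lev : V → ℕ),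
    (∀ v, lev v ≤ M) ∧ (∀ u v, G.Adj u v → lev u ≤ lev v + 1) ∧
    (∀ p j, {v | part v = p ∧ lev v = j}.ncard ≤ c) ∧
    (∀ p, ∀ q ∈ C p, rk q < rk p) ∧ (∀ p, (C p).card ≤ 3) ∧
    (∀ p, ∀ q ∈ C p, ∀ r ∈ C p, q = r ∨ q ∈ C r ∨ r ∈ C q) ∧
    (∀ u v, G.Adj u v → part u = part v ∨ part u ∈ C (part v) ∨ part v ∈ C (part u))

/-- clique relation of parts. -/
def Cl (C : ℕ → Finset ℕ) (p q : ℕ) : Prop := p = q ∨ p ∈ C q ∨ q ∈ C p

/-- region data relative to a partial partition: one, two or three classes. -/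
def Reg {V T : Type} (G : SimpleGraph V) (tv : T → Fin 3 → V) (N : ℕ) (C : ℕ → Finset ℕ)
    (part : V → ℕ) (Om : Set V) : Prop :=
  (∃ x, x < N ∧ Con G Omᶜ ∧ ∀ z ∈ Nb G Om, part z = x) ∨
  (∃ (Z₀ Z₁ : Set V) (x₀ x₁ : ℕ), Con G Z₀ ∧ Con G Z₁ ∧ Disjoint Z₀ Z₁ ∧ Z₀ ∪ Z₁ = Omᶜ ∧
    Tch G Z₀ Z₁ ∧ x₀ < N ∧ x₁ < N ∧ Cl C x₀ x₁ ∧
    (∀ z ∈ Nb G Om, z ∈ Z₀ → part z = x₀) ∧ (∀ z ∈ Nb G Om, z ∈ Z₁ → part z = x₁)) ∨
  (∃ (Z : Fin 3 → Set V) (x : Fin 3 → ℕ), (∀ i, Con G (Z i)) ∧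
    (∀ i j, i ≠ j → Disjoint (Z i) (Z j)) ∧ (⋃ i, Z i) = Omᶜ ∧ (∃ t, Rain tv Z t) ∧
    (∀ i, x i < N) ∧ (∀ i j, Cl C (x i) (x j)) ∧ ∀ i, ∀ z ∈ Nb G Om, z ∈ Z i → part z = x i)

/-- the same, with all classes touching the region. -/
def RegN {V T : Type} (G : SimpleGraph V) (tv : T → Fin 3 → V) (N : ℕ) (C : ℕ → Finset ℕ)
    (part : V → ℕ) (Om : Set V) : Prop :=
  (∃ x, x < N ∧ Con G Omᶜ ∧ ∀ z ∈ Nb G Om, part z = x) ∨
  (∃ (Z₀ Z₁ : Set V) (x₀ x₁ : ℕ), Con G Z₀ ∧ Con G Z₁ ∧ Disjoint Z₀ Z₁ ∧ Z₀ ∪ Z₁ = Omᶜ ∧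
    Tch G Z₀ Z₁ ∧ Tch G Om Z₀ ∧ Tch G Om Z₁ ∧ x₀ < N ∧ x₁ < N ∧ Cl C x₀ x₁ ∧
    (∀ z ∈ Nb G Om, z ∈ Z₀ → part z = x₀) ∧ (∀ z ∈ Nb G Om, z ∈ Z₁ → part z = x₁)) ∨
  (∃ (Z : Fin 3 → Set V) (x : Fin 3 → ℕ), RD3 G tv Om Z ∧
    (∀ i, x i < N) ∧ (∀ i j, Cl C (x i) (x j)) ∧ ∀ i, ∀ z ∈ Nb G Om, z ∈ Z i → part z = x i)

def S_NORM : Prop := ∀ (V T : Type) (G : SimpleGraph V) (tv : T → Fin 3 → V), Sph G tv →
  ∀ (N : ℕ) (C : ℕ → Finset ℕ) (part : V → ℕ) (Om : Set V), Con G Om →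
    Reg G tv N C part Om → RegN G tv N C part Om

/-- the invariant of the process: `U` is the set of treated vertices, `N` parts so far. -/
structure Inv {V T : Type} (G : SimpleGraph V) (tv : T → Fin 3 → V) (M c N : ℕ) (U : Set V)
    (part lev : V → ℕ) (C : ℕ → Finset ℕ) : Prop where
  part_lt : ∀ v ∈ U, part v < N
  lev_le : ∀ v ∈ U, lev v ≤ M
  lev_adj : ∀ u ∈ U, ∀ v ∈ U, G.Adj u v → lev u ≤ lev v + 1
  thick : ∀ p j, {v | v ∈ U ∧ part v = p ∧ lev v = j}.ncard ≤ c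
  C_lt : ∀ p, p < N → ∀ q ∈ C p, q < p
  C_card : ∀ p, p < N → (C p).card ≤ 3
  C_cl : ∀ p, p < N → ∀ q ∈ C p, ∀ r ∈ C p, Cl C q r
  adj : ∀ u ∈ U, ∀ v ∈ U, G.Adj u v → Cl C (part u) (part v)
  reg : ∀ Om, IsComp G Uᶜ Om → Reg G tv N C part Om ∧
    ∃ F : V → ℤ, (∀ z ∈ Nb G Om, F z = lev z) ∧ Lip G Om F

/-- one step of the process. -/
def S_ADV : Prop := ∀ (V T : Type) [Fintype V] (G : SimpleGraph V) (tv : T → Fin 3 → V)
  (M c N : ℕ) (U : Set V) (part lev : V → ℕ) (C : ℕ → Finset ℕ),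
  Inv G tv M c N U part lev C → ∀ Om, IsComp G Uᶜ Om → ∀ Y : Set V, Y ⊆ Om → Y.Nonempty →
  ∀ D : Finset ℕ, D.card ≤ 3 → (∀ d ∈ D, d < N) → (∀ d ∈ D, ∀ d' ∈ D, Cl C d d') →
  (∀ z ∈ Nb G Om, part z ∈ D) →
  ∀ F' : V → ℤ, (∀ z ∈ Nb G Om, F' z = lev z) → Lip G Om F' → (∀ v, 0 ≤ F' v ∧ F' v ≤ M) →
  (∀ a : ℤ, {v | v ∈ Y ∧ F' v = a}.ncard ≤ c) →
  (∀ Om', IsComp G (Om \ Y) Om' →
    Reg G tv (N + 1) (fun p => if p = N then D else C p)
      (fun v => open Classical in if v ∈ Y then N else part v) Om') →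
  ∃ lev' : V → ℕ, Inv G tv M c (N + 1) (U ∪ Y)
    (fun v => open Classical in if v ∈ Y then N else part v) lev'
    (fun p => if p = N then D else C p)

/-- one step for a region with one class. -/
def S_ONE1 : Prop := ∀ (V T : Type) [Fintype V] (G : SimpleGraph V) (tv : T → Fin 3 → V)
  (M c N : ℕ) (U : Set V) (part lev : V → ℕ) (C : ℕ → Finset ℕ), Sph G tv → 1 ≤ c →
  Inv G tv M c N U part lev C → ∀ Om, IsComp G Uᶜ Om →
  (∃ x, x < N ∧ Con G Omᶜ ∧ ∀ z ∈ Nb G Om, part z = x) →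
  ∃ (U' : Set V) (part' lev' : V → ℕ) (C' : ℕ → Finset ℕ),
    Inv G tv M c (N + 1) U' part' lev' C' ∧ U ⊂ U'

/-- one step for a region with two classes. -/
def S_ONE2 : Prop := ∀ (V T : Type) [Fintype V] (G : SimpleGraph V) (tv : T → Fin 3 → V)
  (M c N : ℕ) (U : Set V) (part lev : V → ℕ) (C : ℕ → Finset ℕ), Sph G tv → 1 ≤ c →
  Inv G tv M c N U part lev C → ∀ Om, IsComp G Uᶜ Om →
  (∃ (Z₀ Z₁ : Set V) (x₀ x₁ : ℕ), Con G Z₀ ∧ Con G Z₁ ∧ Disjoint Z₀ Z₁ ∧ Z₀ ∪ Z₁ = Omᶜ ∧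
    Tch G Z₀ Z₁ ∧ Tch G Om Z₀ ∧ Tch G Om Z₁ ∧ x₀ < N ∧ x₁ < N ∧ Cl C x₀ x₁ ∧
    (∀ z ∈ Nb G Om, z ∈ Z₀ → part z = x₀) ∧ (∀ z ∈ Nb G Om, z ∈ Z₁ → part z = x₁)) →
  ∃ (U' : Set V) (part' lev' : V → ℕ) (C' : ℕ → Finset ℕ),
    Inv G tv M c (N + 1) U' part' lev' C' ∧ U ⊂ U'

/-- one step for a region with three classes. -/
def S_ONE3 : Prop := ∀ (V T : Type) [Fintype V] (G : SimpleGraph V) (tv : T → Fin 3 → V)
  (k N : ℕ) (U : Set V) (part lev : V → ℕ) (C : ℕ → Finset ℕ), Sph G tv → StepP G tv k →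
  Inv G tv (2 * k) 36 N U part lev C → ∀ Om, IsComp G Uᶜ Om →
  (∃ (Z : Fin 3 → Set V) (x : Fin 3 → ℕ), RD3 G tv Om Z ∧
    (∀ i, x i < N) ∧ (∀ i j, Cl C (x i) (x j)) ∧ ∀ i, ∀ z ∈ Nb G Om, z ∈ Z i → part z = x i) →
  ∃ (U' : Set V) (part' lev' : V → ℕ) (C' : ℕ → Finset ℕ),
    Inv G tv (2 * k) 36 (N + 1) U' part' lev' C' ∧ U ⊂ U'

/-- the whole process. -/
def S_MACH : Prop := ∀ (V T : Type) [Fintype V] (G : SimpleGraph V) (tv : T → Fin 3 → V),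
  Sph G tv → ∀ (k : ℕ), 1 ≤ k → StepP G tv k → Out G (2 * k) 36

/-! ### separators -/

/-- a graph `G` on `A ⊕ W` extending `G₀` on `A` by an independent set `W` (faces). -/
structure VF {A W : Type} (G₀ : SimpleGraph A) (G : SimpleGraph (A ⊕ W)) : Prop where
  ll : ∀ a b, G.Adj (Sum.inl a) (Sum.inl b) ↔ G₀.Adj a b
  rr : ∀ w w', ¬ G.Adj (Sum.inr w) (Sum.inr w')

/-- all connected sets with connected complement have connected neighbourhood. -/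
def NBP {V : Type} (G : SimpleGraph V) : Prop := ∀ A : Set V, Con G A → Con G Aᶜ → Con G (Nb G A)

def S_LINK : Prop := ∀ (A W : Type) [Fintype A] [Fintype W] (G₀ : SimpleGraph A)
  (G : SimpleGraph (A ⊕ W)), VF G₀ G → Con G₀ univ → Con G univ → NBP G →
  ∀ w : W, Con G₀ {a | G.Adj (Sum.inr w) (Sum.inl a)}

/-- replacing the faces of a connected set by their links gives a connected set of `G₀`. -/
def S_PJ : Prop := ∀ (A W : Type) (G₀ : SimpleGraph A) (G : SimpleGraph (A ⊕ W)), VF G₀ G →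
  (∀ w : W, Con G₀ {a | G.Adj (Sum.inr w) (Sum.inl a)}) → ∀ Q : Set (A ⊕ W), Con G Q →
  Con G₀ {a | Sum.inl a ∈ Q ∨ ∃ w, Sum.inr w ∈ Q ∧ G.Adj (Sum.inr w) (Sum.inl a)}

/-- the levels around a deep vertex. -/
def S_LEV : Prop := ∀ (V : Type) [Fintype V] (G : SimpleGraph V), Con G univ → NBP G →
  ∀ (Om : Set V) (x : V) (J : ℕ), Con G Omᶜ → (∀ z, z ∉ Om → J < G.dist x z) →
  ∃ B : ℕ → Set V, ∀ j, j ≤ J →
    x ∈ B j ∧ IsComp G {v | ∀ z, z ∉ Om → j < G.dist v z} (B j) ∧ Con G (B j)ᶜ ∧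
    Con G (Nb G (B j)) ∧
    (∀ y ∈ Nb G (B j), (∀ z, z ∉ Om → j ≤ G.dist y z) ∧ ∃ z, z ∉ Om ∧ G.dist y z = j) ∧
    ∀ j', j' ≤ J → j < j' → B j' ∪ Nb G (B j') ⊆ B j

/-- a connected set with few `A`-vertices has small diameter. -/
def S_DIAM : Prop := ∀ (A W : Type) [Fintype A] [Fintype W] (G : SimpleGraph (A ⊕ W)),
  (∀ w w' : W, ¬ G.Adj (Sum.inr w) (Sum.inr w')) → ∀ (Q : Set (A ⊕ W)) (m : ℕ), Con G Q →
    {a : A | Sum.inl a ∈ Q}.ncard ≤ m → ∀ y ∈ Q, ∀ y' ∈ Q, G.dist y y' ≤ 2 * m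

def S_SEPN : Prop := ∀ (A W : Type) [Fintype A] [Fintype W] (G : SimpleGraph (A ⊕ W)),
  (∀ w w' : W, ¬ G.Adj (Sum.inr w) (Sum.inr w')) → Con G univ → NBP G →
  ∀ k : ℕ, 1 ≤ k → Fintype.card A ≤ k * k → SepP G k

/-- `G` has a tree decomposition with all bags of size at most `w`. -/
def TD {V : Type} (G : SimpleGraph V) (w : ℕ) : Prop :=
  ∃ (m : ℕ) (T : SimpleGraph (Fin m)) (B : Fin m → Finset V),
    T.IsTree ∧ (∀ u v, G.Adj u v → ∃ t, u ∈ B t ∧ v ∈ B t) ∧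
    (∀ v, (T.induce {t | v ∈ B t}).Connected) ∧ ∀ t, (B t).card ≤ w

/-- among `k + 1` disjoint connected sets two are separated by `k` vertices outside them. -/
def S_HELLY : Prop := ∀ (A : Type) (G₀ : SimpleGraph A) (k : ℕ), TD G₀ k →
  ∀ P : Fin (k + 1) → Set A, (∀ i, Con G₀ (P i)) → (∀ i j, i ≠ j → Disjoint (P i) (P j)) →
    ∃ i j, i < j ∧ ∃ (S : Finset A) (R : Set A), S.card ≤ k ∧ Disjoint (S : Set A) (P i) ∧
      Disjoint (S : Set A) (P j) ∧ Con G₀ R ∧ P j ⊆ R ∧ Disjoint R (P i) ∧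
      Disjoint R (S : Set A) ∧ ∀ u ∈ R, ∀ v, G₀.Adj u v → v ∈ R ∨ v ∈ S

def S_SEPT : Prop := ∀ (A W : Type) [Fintype A] [Fintype W] (G₀ : SimpleGraph A)
  (G : SimpleGraph (A ⊕ W)), VF G₀ G → Con G₀ univ → Con G univ → NBP G →
  ∀ k : ℕ, 1 ≤ k → TD G₀ k → SepP G k

def S_CORE : Prop := ∀ (A W T : Type) [Fintype A] [Fintype W] (G₀ : SimpleGraph A)
  (G : SimpleGraph (A ⊕ W)) (tv : T → Fin 3 → A ⊕ W), Sph G tv → VF G₀ G → Con G₀ univ →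
  ∀ k : ℕ, 1 ≤ k → (TD G₀ k ∨ Fintype.card A ≤ k * k) → Out G₀ (2 * k) 36

/-! ### from the output to strong products -/

/-- strong product. -/
def SP {A B : Type} (H : SimpleGraph A) (P : SimpleGraph B) : SimpleGraph (A × B) :=
  SimpleGraph.fromRel (fun p q : A × B =>
    (p.1 = q.1 ∨ H.Adj p.1 q.1) ∧ (p.2 = q.2 ∨ P.Adj p.2 q.2))

def S_OUT : Prop := ∀ (V : Type) [Fintype V] (G : SimpleGraph V) (M c : ℕ), Out G M c →
  ∃ (a : ℕ) (H : SimpleGraph (Fin a)), TD H (4 * c) ∧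
    ∃ f : G →g SP H (SimpleGraph.pathGraph (M + 1)), Function.Injective f

def S_TDSP : Prop := ∀ (a b w : ℕ) (H : SimpleGraph (Fin a)), 1 ≤ b → TD H w →
  TD (SP H (SimpleGraph.pathGraph b)) (w * b)

def S_UNION : Prop := ∀ (V : Type) [Fintype V] (G : SimpleGraph V) (M c : ℕ),
  (∀ K : G.ConnectedComponent, Out (G.induce K.supp) M c) → Out G M c

/-! ### topological drawings -/

/-- a drawing of `G` in the plane without crossings. -/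
def Drawn {V : Type} (G : SimpleGraph V) : Prop :=
  ∃ (f : V → ℂ) (γ : ∀ u v : V, G.Adj u v → Path (f u) (f v)),
    Function.Injective f ∧
    (∀ (u v : V) (h : G.Adj u v), Function.Injective ⇑(γ u v h)) ∧
    (∀ (u v : V) (h : G.Adj u v) (s : unitInterval) (w : V),
      γ u v h s = f w → w = u ∨ w = v) ∧
    (∀ (u v x y : V) (h : G.Adj u v) (h' : G.Adj x y) (s t : unitInterval),
      γ u v h s = γ x y h' t → s(u, v) ≠ s(x, y) →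
        ∃ w : V, (w = u ∨ w = v) ∧ (w = x ∨ w = y) ∧ γ u v h s = f w)

/-- the triangular lattice on `ℤ × ℤ`. -/
def Lat : SimpleGraph (ℤ × ℤ) := SimpleGraph.fromRel (fun p q =>
  (q.1 = p.1 + 1 ∧ q.2 = p.2) ∨ (q.1 = p.1 ∧ q.2 = p.2 + 1) ∨ (q.1 = p.1 + 1 ∧ q.2 = p.2 + 1))

/-- a thick model of `G` in a graph `L`: connected sets for the vertices and for the edges. -/
def Model {A X : Type} (G : SimpleGraph A) (L : SimpleGraph X) (Cv : A → Set X)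
    (Ce : Sym2 A → Set X) : Prop :=
  (∀ u, Con L (Cv u)) ∧ (∀ e ∈ G.edgeSet, Con L (Ce e)) ∧
  (∀ u v, u ≠ v → Disjoint (Cv u) (Cv v) ∧ ¬ Tch L (Cv u) (Cv v)) ∧
  (∀ e ∈ G.edgeSet, ∀ u ∈ e, (Ce e ∩ Cv u).Nonempty) ∧
  (∀ e ∈ G.edgeSet, ∀ u, u ∉ e → Disjoint (Ce e) (Cv u) ∧ ¬ Tch L (Ce e) (Cv u)) ∧
  (∀ e ∈ G.edgeSet, ∀ e' ∈ G.edgeSet, e ≠ e' → Disjoint (Ce e) (Ce e') ∧ ¬ Tch L (Ce e) (Ce e'))

/-- a thick model of `G` by compact connected subsets of the plane. -/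
def CModel {A : Type} (G : SimpleGraph A) (Kv : A → Set ℂ) (Ke : Sym2 A → Set ℂ) : Prop :=
  (∀ u, IsCompact (Kv u) ∧ IsConnected (Kv u)) ∧
  (∀ e ∈ G.edgeSet, IsCompact (Ke e) ∧ IsConnected (Ke e)) ∧
  (∀ u v, u ≠ v → Disjoint (Kv u) (Kv v)) ∧
  (∀ e ∈ G.edgeSet, ∀ u ∈ e, (Ke e ∩ Kv u).Nonempty) ∧
  (∀ e ∈ G.edgeSet, ∀ u, u ∉ e → Disjoint (Ke e) (Kv u)) ∧
  (∀ e ∈ G.edgeSet, ∀ e' ∈ G.edgeSet, e ≠ e' → Disjoint (Ke e) (Ke e'))

def S_ANA1 : Prop := ∀ (A : Type) [Fintype A] (G : SimpleGraph A), Drawn G →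
  ∃ (Kv : A → Set ℂ) (Ke : Sym2 A → Set ℂ), CModel G Kv Ke

def S_ANA2 : Prop := ∀ (A : Type) [Fintype A] (G : SimpleGraph A) (Kv : A → Set ℂ)
  (Ke : Sym2 A → Set ℂ), CModel G Kv Ke →
  ∃ (Cv : A → Set (ℤ × ℤ)) (Ce : Sym2 A → Set (ℤ × ℤ)), Model G Lat Cv Ce ∧
    (∀ u, (Cv u).Finite) ∧ ∀ e, (Ce e).Finite

/-- analysis: a drawing gives a finite model in the triangular lattice. -/
def S_ANA : Prop := ∀ (A : Type) [Fintype A] (G : SimpleGraph A), Drawn G →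
  ∃ (Cv : A → Set (ℤ × ℤ)) (Ce : Sym2 A → Set (ℤ × ℤ)), Model G Lat Cv Ce ∧
    (∀ u, (Cv u).Finite) ∧ ∀ e, (Ce e).Finite

/-- the box `[0, L]²` of the lattice sits (as an induced subgraph) in a triangulated sphere. -/
def S_GRID : Prop := ∀ L : ℕ, ∃ (X E T : Type) (_ : Fintype X) (_ : Fintype E) (_ : Fintype T)
  (K : Cx X E T) (j : ℤ × ℤ → X), K.IsSphere ∧
  (∀ p q : ℤ × ℤ, 0 ≤ p.1 → p.1 ≤ L → 0 ≤ p.2 → p.2 ≤ L → 0 ≤ q.1 → q.1 ≤ L → 0 ≤ q.2 →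
    q.2 ≤ L → (j p = j q → p = q) ∧ (K.gr.Adj (j p) (j q) ↔ Lat.Adj p q))

/-- from a model to a map with connected fibres onto a face extension of `G₀`. -/
def S_PART : Prop := ∀ (A X : Type) [Fintype A] [Nonempty A] [Fintype X] (G₀ : SimpleGraph A)
  (L : SimpleGraph X) (Cv : A → Set X) (Ce : Sym2 A → Set X), Con L univ → Model G₀ L Cv Ce →
  ∃ (W : Type) (_ : Fintype W) (G : SimpleGraph (A ⊕ W)) (f : X → A ⊕ W),
    Function.Surjective f ∧ (∀ v, Con L (f ⁻¹' {v})) ∧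
    (∀ u v, G.Adj u v ↔ u ≠ v ∧ ∃ x y, f x = u ∧ f y = v ∧ L.Adj x y) ∧ VF G₀ G

/-- a drawing of a connected graph gives an abstract sphere with the faces as extra vertices. -/
def S_TOP : Prop := ∀ (A : Type) [Fintype A] (G₀ : SimpleGraph A), Con G₀ univ → Drawn G₀ →
  ∃ (W T : Type) (_ : Fintype W) (G : SimpleGraph (A ⊕ W)) (tv : T → Fin 3 → A ⊕ W),
    Sph G tv ∧ VF G₀ G

/-- final embedding statement for drawn graphs with a tree decomposition or few vertices. -/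
def S_FIN : Prop := ∀ (A : Type) [Fintype A] (G : SimpleGraph A), Drawn G → ∀ k : ℕ, 1 ≤ k →
  (TD G k ∨ Fintype.card A ≤ k * k) → Out G (2 * k) 36

end Pool.Agent.W606.PS
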