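import Pool.Agent.W606.PS.Stm

/-!
The triangulated cylinder `ZMod n × {1..m}` with two poles, a triangulated sphere.
-/

set_option autoImplicit false

open Set Relation

namespace Pool.Agent.W606.PS

/-- vertices: `m` circles of length `n` and two poles. -/
abbrev CX (n m : ℕ) : Type := (ZMod n × Fin m) ⊕ Bool
/-- edges: horizontal, vertical, diagonal. -/
abbrev CE (n m : ℕ) : Type := (ZMod n × Fin m) ⊕ ((ZMod n × Fin (m + 1)) ⊕ (ZMod n × Fin (m - 1)))
/-- triangles: above and below a horizontal edge. -/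
abbrev CT (n m : ℕ) : Type := (ZMod n × Fin m) ⊕ (ZMod n × Fin m)

/-- the vertex in column `i` at height `J`; height `0` and heights `> m` are the poles. -/
def cP (n m : ℕ) (i : ZMod n) (J : ℕ) : CX n m :=
  if _h0 : J = 0 then Sum.inr false
  else if h : J - 1 < m then Sum.inl (i, ⟨J - 1, h⟩) else Sum.inr true

/-- horizontal edge at height `j + 1`. -/
def cHor (n m : ℕ) (i : ZMod n) (j : Fin m) : CE n m := Sum.inl (i, j)
/-- vertical edge from height `j` to height `j + 1`. -/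
def cVer (n m : ℕ) (i : ZMod n) (j : Fin (m + 1)) : CE n m := Sum.inr (Sum.inl (i, j))
/-- slanted edge from column `i`, height `j` to column `i + 1`, height `j + 1`; near the poles
this is a vertical edge. -/
def cSla (n m : ℕ) (i : ZMod n) (j : Fin (m + 1)) : CE n m :=
  if _h0 : (j : ℕ) = 0 then Sum.inr (Sum.inl (i + 1, j))
  else if h : (j : ℕ) - 1 < m - 1 then Sum.inr (Sum.inr (i, ⟨(j : ℕ) - 1, h⟩))
  else Sum.inr (Sum.inl (i, j))

/-- ends of the edges. -/
def cE (n m : ℕ) : CE n m → Fin 2 → CX n m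
  | Sum.inl (i, j) => ![cP n m i (j + 1), cP n m (i + 1) (j + 1)]
  | Sum.inr (Sum.inl (i, j)) => ![cP n m i j, cP n m i (j + 1)]
  | Sum.inr (Sum.inr (i, j)) => ![cP n m i (j + 1), cP n m (i + 1) (j + 2)]

/-- edges of the triangles. -/
def cTE (n m : ℕ) : CT n m → Fin 3 → CE n m
  | Sum.inl (i, j) => ![cVer n m (i + 1) j.succ, cSla n m i j.succ, cHor n m i j]
  | Sum.inr (i, j) => ![cHor n m i j, cSla n m i j.castSucc, cVer n m i j.castSucc]

/-- vertices of the triangles. -/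
def cTV (n m : ℕ) : CT n m → Fin 3 → CX n m
  | Sum.inl (i, j) => ![cP n m i (j + 1), cP n m (i + 1) (j + 1), cP n m (i + 1) (j + 2)]
  | Sum.inr (i, j) => ![cP n m i j, cP n m i (j + 1), cP n m (i + 1) (j + 1)]

theorem cSla_ends (n m : ℕ) (i : ZMod n) (j : Fin (m + 1)) :
    s(cE n m (cSla n m i j) 0, cE n m (cSla n m i j) 1) =
      s(cP n m i j, cP n m (i + 1) (j + 1)) := by
  unfold cSla
  by_cases h0 : (j : ℕ) = 0
  · simp [h0, cE, cP]
  · by_cases h : (j : ℕ) - 1 < m - 1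
    · rw [dif_neg h0, dif_pos h]
      have e1 : (j : ℕ) - 1 + 1 = j := by omega
      have e2 : (j : ℕ) - 1 + 2 = j + 1 := by omega
      simp [cE, e1, e2]
    · rw [dif_neg h0, dif_neg h]
      have hj : (j : ℕ) = m := by omega
      have h1 : cP n m i (j + 1) = cP n m (i + 1) (j + 1) := by
        simp [cP, hj]
      simp [cE, h1]

/-- the triangulated cylinder with poles. -/
def Cyl (n m : ℕ) : Cx (CX n m) (CE n m) (CT n m) where
  e := cE n m
  te := cTE n m
  tv := cTV n m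
  inc := by
    intro t i
    rcases t with ⟨a, j⟩ | ⟨a, j⟩
    · fin_cases i
      · simp [cTE, cTV, cVer, cE]
        
      · have := cSla_ends n m a j.succ
        simp [cTE, cTV] at this ⊢
        tauto
      · simp [cTE, cTV, cHor, cE]
    · fin_cases i
      · simp [cTE, cTV, cHor, cE]
      · have := cSla_ends n m a j.castSucc
        simp [cTE, cTV] at this ⊢
        tauto
      · simp [cTE, cTV, cVer, cE]

/-- first part of the sphere axioms. -/
def S_CYL1 : Prop := ∀ (n m : ℕ) [NeZero n], 1 ≤ m →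
  Con (Cyl n m).gr univ ∧
  (∀ a : CE n m, {p : CT n m × Fin 3 | (Cyl n m).te p.1 p.2 = a}.ncard = 2)

/-- second part of the sphere axioms. -/
def S_CYL2 : Prop := ∀ (n m : ℕ) [NeZero n], 1 ≤ m →
  (∀ A : Set (CT n m), (∀ a : CE n m, Even {p : CT n m × Fin 3 | p.1 ∈ A ∧
    (Cyl n m).te p.1 p.2 = a}.ncard) → A = ∅ ∨ A = univ) ∧
  Fintype.card (CX n m) + Fintype.card (CT n m) = Fintype.card (CE n m) + 2

/-- the box `[0, L]²` as an induced subgraph. -/
def S_CYL3 : Prop := ∀ (L : ℕ) (p q : ℤ × ℤ), 0 ≤ p.1 → p.1 ≤ L → 0 ≤ p.2 → p.2 ≤ L →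
  0 ≤ q.1 → q.1 ≤ L → 0 ≤ q.2 → q.2 ≤ L →
  (cP (L + 3) (L + 1) (p.1 : ZMod (L + 3)) (p.2.toNat + 1) =
    cP (L + 3) (L + 1) (q.1 : ZMod (L + 3)) (q.2.toNat + 1) → p = q) ∧
  ((Cyl (L + 3) (L + 1)).gr.Adj (cP (L + 3) (L + 1) (p.1 : ZMod (L + 3)) (p.2.toNat + 1))
    (cP (L + 3) (L + 1) (q.1 : ZMod (L + 3)) (q.2.toNat + 1)) ↔ Lat.Adj p q)

theorem grid_of_cyl (h1 : S_CYL1) (h2 : S_CYL2) (h3 : S_CYL3) : S_GRID := by
  intro L
  refine ⟨CX (L + 3) (L + 1), CE (L + 3) (L + 1), CT (L + 3) (L + 1), inferInstance, inferInstance,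
    inferInstance, Cyl (L + 3) (L + 1),
    fun p => cP (L + 3) (L + 1) (p.1 : ZMod (L + 3)) (p.2.toNat + 1), ?_, h3 L⟩
  exact ⟨(h1 (L + 3) (L + 1) (by omega)).1, (h1 (L + 3) (L + 1) (by omega)).2,
    (h2 (L + 3) (L + 1) (by omega)).1, (h2 (L + 3) (L + 1) (by omega)).2⟩

end Pool.Agent.W606.PS
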