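import Pool.Agent.W606.PS.Stm

set_option autoImplicit false

open Set Relation

namespace Pool.Agent.W606.PS

theorem td_mono {V : Type} {G : SimpleGraph V} {w w' : ℕ} (h : w ≤ w') (H : TD G w) : TD G w' := by
  obtain ⟨m, T, B, h1, h2, h3, h4⟩ := H
  exact ⟨m, T, B, h1, h2, h3, fun t => (h4 t).trans h⟩

theorem isTree_one : (⊥ : SimpleGraph (Fin 1)).IsTree := by
  refine ⟨⟨fun u v => by rw [Subsingleton.elim u v]⟩, ?_⟩
  intro u p hp
  have h1 := hp.1.1
  cases p with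
  | nil => exact absurd rfl hp.ne_nil
  | cons h _ => exact absurd h (by simp)

theorem td_card (V : Type) [Fintype V] (G : SimpleGraph V) : TD G (Fintype.card V) := by
  classical
  refine ⟨1, ⊥, fun _ => Finset.univ, isTree_one, fun u v _ => ⟨0, by simp, by simp⟩, ?_,
    fun t => by simp⟩
  intro v
  have : Nonempty ({t : Fin 1 | v ∈ (Finset.univ : Finset V)} : Set (Fin 1)) := ⟨⟨0, by simp⟩⟩
  refine ⟨fun x y => ?_⟩
  have : x = y := Subtype.ext (Subsingleton.elim _ _)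
  rw [this]

/-- main consequence: for every bound `k ≥ 1` on the bag size the path has `2 k + 1` vertices. -/
theorem emb (h1 : S_FIN) (h2 : S_OUT) {V : Type} [Fintype V] (G : SimpleGraph V) (hG : Drawn G)
    (k : ℕ) (hk : 1 ≤ k) (h : TD G k ∨ Fintype.card V ≤ k * k) :
    ∃ (a : ℕ) (H : SimpleGraph (Fin a)), TD H 144 ∧
      ∃ f : G →g SP H (SimpleGraph.pathGraph (2 * k + 1)), Function.Injective f :=
  h2 V G (2 * k) 36 (h1 V G hG k hk h)

theorem frozen (h1 : S_FIN) (h2 : S_OUT) (h3 : S_TDSP) :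
    ∃ c k₀ : ℕ, ∀ (V : Type) [Fintype V] (G : SimpleGraph V), Drawn G →
      ∃ (a b : ℕ) (H : SimpleGraph (Fin a)), TD H (k₀ + 1) ∧
        (∃ φ : G →g SP H (SimpleGraph.pathGraph b), Function.Injective φ) ∧
        ∀ k : ℕ, TD G (k + 1) → TD (SP H (SimpleGraph.pathGraph b)) (c * (k + 1) + 1) := by
  classical
  refine ⟨432, 143, ?_⟩
  intro V _ G hG
  have hex : ∃ k, TD G k := ⟨_, td_card V G⟩
  set q := max (Nat.find hex) 1 with hq
  have hq1 : 1 ≤ q := le_max_right _ _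
  have htd : TD G q := td_mono (le_max_left _ _) (Nat.find_spec hex)
  obtain ⟨a, H, hH, f, hf⟩ := emb h1 h2 G hG q hq1 (Or.inl htd)
  refine ⟨a, 2 * q + 1, H, hH, ⟨f, hf⟩, ?_⟩
  intro k hk
  have hle : Nat.find hex ≤ k + 1 := Nat.find_min' hex hk
  have hqk : q ≤ k + 1 := max_le hle (by omega)
  refine td_mono ?_ (h3 a (2 * q + 1) 144 H (by omega) hH)
  nlinarith

/-- Q1 and Q2 of MP_9863c1_co. -/
theorem own (h1 : S_FIN) (h2 : S_OUT) :
    ∃ c C : ℕ, ∀ (V : Type) [Fintype V] (G : SimpleGraph V), Drawn G →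
      (∀ k : ℕ, TD G (k + 1) → ∃ (a b : ℕ) (H : SimpleGraph (Fin a)), TD H (c + 1) ∧
        (∃ φ : G →g SP H (SimpleGraph.pathGraph b), Function.Injective φ) ∧ b ≤ C * (k + 1)) ∧
      (∃ (a b : ℕ) (H : SimpleGraph (Fin a)), TD H (c + 1) ∧
        (∃ φ : G →g SP H (SimpleGraph.pathGraph b), Function.Injective φ) ∧
        ((min a b : ℕ) : ℝ) ≤ C * Real.sqrt (Fintype.card V)) := by
  classical
  refine ⟨143, 5, ?_⟩
  intro V _ G hG
  constructor
  · intro k hk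
    obtain ⟨a, H, hH, f, hf⟩ := emb h1 h2 G hG (k + 1) (by omega) (Or.inl hk)
    exact ⟨a, 2 * (k + 1) + 1, H, hH, ⟨f, hf⟩, by omega⟩
  · by_cases hV : Fintype.card V = 0
    · have hE : IsEmpty V := Fintype.card_eq_zero_iff.1 hV
      refine ⟨0, 1, ⊥, td_mono (by simp) (td_card (Fin 0) ⊥), ⟨⟨fun v => (hE.false v).elim,
        fun {v} => (hE.false v).elim⟩, fun v => (hE.false v).elim⟩, ?_⟩
      simp
    · set n := Fintype.card V with hn
      have hn1 : 1 ≤ n := Nat.one_le_iff_ne_zero.2 hV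
      have hlt : n ≤ (Nat.sqrt n + 1) * (Nat.sqrt n + 1) := (Nat.lt_succ_sqrt n).le
      obtain ⟨a, H, hH, f, hf⟩ := emb h1 h2 G hG (Nat.sqrt n + 1) (by omega) (Or.inr hlt)
      refine ⟨a, 2 * (Nat.sqrt n + 1) + 1, H, hH, ⟨f, hf⟩, ?_⟩
      have hs1 : (1 : ℝ) ≤ Real.sqrt n := by
        rw [Real.one_le_sqrt]
        exact_mod_cast hn1
      have hs : (Nat.sqrt n : ℝ) ≤ Real.sqrt n := Real.nat_sqrt_le_real_sqrt
      have : ((min a (2 * (Nat.sqrt n + 1) + 1) : ℕ) : ℝ) ≤ ((2 * (Nat.sqrt n + 1) + 1 : ℕ) : ℝ) := by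
        exact_mod_cast min_le_right _ _
      refine this.trans ?_
      push_cast
      linarith

end Pool.Agent.W606.PS
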