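import Pool.Agent.W606.PS.Core
import Pool.Agent.W606.PS.Main
import Pool.Agent.W606.PS.Cyl
import Pool.Agent.W19.PS.FC
import Pool.Agent.W370.PS.FT2
import Pool.Agent.W346.PS.Quot
import Pool.Agent.W346.PS.NB
import Pool.Agent.W85.PS.FactA
import Pool.Agent.W143.PS.K33
import Pool.Agent.W202.PS.Sep1
import Pool.Agent.W179.PS.Sep2
import Pool.Agent.W395.PS.Two
import Pool.Agent.W253.PS606.FPlus
import Pool.Agent.W318.PS.Leg
import Pool.Agent.W101.PS.Fold
import Pool.Agent.W303.PS6.Case1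
import Pool.Agent.W790.PSP.C2A
import Pool.Agent.W639.PS.Case2
import Pool.Agent.W701.PS.Fstep
import Pool.Agent.W196.PS.STEP
import Pool.Agent.W174.PS.Norm
import Pool.Agent.W881.PS.Adv
import Pool.Agent.W577.PS.One1
import Pool.Agent.W839.PS.One3
import Pool.Agent.W308.PS.MACH
import Pool.Agent.W762.PS.Link
import Pool.Agent.W179.PS.Pj
import Pool.Agent.W563.PS.Lev
import Pool.Agent.W828.PS.Diam
import Pool.Agent.W565.PS.SEPN
import Pool.Agent.W193.PS.HELLY
import Pool.Agent.W439.PS.SEPT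
import Pool.Agent.W536.PS.Out
import Pool.Agent.W636.PST.TDSP
import Pool.Agent.W377.PS.Union
import Pool.Agent.W11.PS.Part
import Pool.Agent.W986.PS.Top
import Pool.Agent.W382.PS.Fin
import Pool.Agent.W442.PS.Ana1
import Pool.Agent.W63.PS.Ana2
import Pool.Agent.W303.PS6.Cyl1
import Pool.Agent.W947.PS.Cyl2

set_option autoImplicit false

namespace Pool.Agent.W606.PS.All

open Pool.Agent.W606.PS

theorem quot : S_QUOT := Pool.Agent.W346.PS.QT.main Pool.Agent.W19.PS.FC.main Pool.Agent.W370.PS.main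
theorem facta : S_FACTA := Pool.Agent.W85.PS.FactA.main
theorem k33 : S_K33 := Pool.Agent.W143.PS.K33.main facta
theorem case1 : S_CASE1 := Pool.Agent.W303.PS6.Case1.main (Pool.Agent.W202.PS.Sep1.main facta)
theorem case2 : S_CASE2 :=
  Pool.Agent.W639.PS.Case2.main (Pool.Agent.W179.PS.main k33) Pool.Agent.W790.PSP.main
theorem step : S_STEP :=
  Pool.Agent.W196.PSSTEP.main Pool.Agent.W253.PS606.main Pool.Agent.W318.PS.Leg.main facta case1
    case2 (Pool.Agent.W701.PS.Fstep.main Pool.Agent.W101.PS.main)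
theorem mach (h2 : S_ONE2) : S_MACH :=
  Pool.Agent.W308.PS.main Pool.Agent.W174.PS.Norm.main
    (Pool.Agent.W577.PS.One1.main Pool.Agent.W881.PS.Adv.main) h2
    (Pool.Agent.W839.PS.main Pool.Agent.W881.PS.Adv.main)
theorem sept : S_SEPT :=
  Pool.Agent.W439.PS.SEPT.main Pool.Agent.W762.PS.Link.main Pool.Agent.W563.PS.Lev.main
    Pool.Agent.W828.PS.Diam.main Pool.Agent.W193.PS.main Pool.Agent.W179.PS.Pj.main
theorem sepn : S_SEPN :=
  Pool.Agent.W565.PS.main Pool.Agent.W563.PS.Lev.main Pool.Agent.W828.PS.Diam.main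
theorem coreT (h2 : S_ONE2) : S_CORE :=
  core Pool.Agent.W346.PS.NB.main sepn sept step (mach h2)
theorem ana : S_ANA := Pool.Agent.W986.PS.Top.ana Pool.Agent.W442.PS.main Pool.Agent.W63.PS.Ana2.main
theorem top (h : S_CYL3) : S_TOP :=
  Pool.Agent.W986.PS.Top.main ana
    (grid_of_cyl Pool.Agent.W303.PS6.Cyl1.main Pool.Agent.W947.PS.main h)
    Pool.Agent.W11.PSPart.main quot
theorem fin (h2 : S_ONE2) (h : S_CYL3) : S_FIN :=
  Pool.Agent.W382.PS.Fin.main (top h) (coreT h2) Pool.Agent.W377.PS.Union.main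
theorem out : S_OUT := Pool.Agent.W536.PS.main
theorem tdsp : S_TDSP := Pool.Agent.W636.PST.main

end Pool.Agent.W606.PS.All
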