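import Pool.Agent.W606.PS.Stm

set_option autoImplicit false

open Set Relation

namespace Pool.Agent.W606.PS

theorem out_comap {A B : Type} {G₀ : SimpleGraph A} {G : SimpleGraph B} [Finite B] (i : A → B)
    (hi : Function.Injective i) (h : ∀ a b, G₀.Adj a b → G.Adj (i a) (i b)) {M c : ℕ}
    (hO : Out G M c) : Out G₀ M c := by
  obtain ⟨P, fP, rk, C, part, lev, h1, h2, h3, h4, h5, h6, h7⟩ := hO
  refine ⟨P, fP, rk, C, part ∘ i, lev ∘ i, fun v => h1 _, fun u v e => h2 _ _ (h u v e), ?_,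
    h4, h5, h6, fun u v e => h7 _ _ (h u v e)⟩
  intro p j
  refine le_trans ?_ (h3 p j)
  rw [← Set.ncard_image_of_injective _ hi]
  apply Set.ncard_le_ncard _ (Set.toFinite _)
  rintro _ ⟨a, ha, rfl⟩
  exact ha

theorem core (h1 : S_NB) (h2 : S_SEPN) (h3 : S_SEPT) (h4 : S_STEP) (h5 : S_MACH) : S_CORE := by
  intro A W T _ _ G₀ G tv hS hV hc k hk hor
  have nb : NBP G := h1 _ _ G tv hS
  have sep : SepP G k := by
    rcases hor with h | h
    · exact h3 A W G₀ G hV hc hS.conn nb k hk h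
    · exact h2 A W G hV.rr hS.conn nb k hk h
  have out := h5 _ _ G tv hS k hk (h4 _ _ G tv hS k hk sep)
  exact out_comap Sum.inl Sum.inl_injective (fun a b e => (hV.ll a b).2 e) out

end Pool.Agent.W606.PS
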